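import Mathlib

/-! Sliced diagrams (Morse words), Turaev moves, marked graph diagrams, disc-band surfaces. -/

namespace Pool.Agent.AS

/-- Labels of strands: `act p q` is the new label of a strand `q` that passes under `p`,
`rho p` is the label of the same strand read in the opposite direction. -/
class Lab (Y : Type) where
  act : Y → Y → Y
  rho : Y → Y

/-- Orientations: `true` is upwards. -/
instance : Lab Bool := ⟨fun _ y => y, fun y => !y⟩

/-- An orientation and a name that is constant along strands. -/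
instance (T : Type) : Lab (Bool × T) := ⟨fun _ y => y, fun y => (!y.1, y.2)⟩

/-- Elementary pieces, read from bottom to top: crossing with the strand from the left on top,
crossing with the strand from the right on top, minimum (label of its left end), maximum. -/
inductive Kd (Y : Type) where
  | X : Kd Y
  | Z : Kd Y
  | cup (y : Y) : Kd Y
  | cap : Kd Y

/-- A letter: number of strands to the left, and a piece. -/
abbrev L (Y : Type) := ℕ × Kd Y

variable {Y Y' : Type}

def Kd.map (f : Y → Y') : Kd Y → Kd Y'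
  | .X => .X
  | .Z => .Z
  | .cup y => .cup (f y)
  | .cap => .cap

def mapW (f : Y → Y') (w : List (L Y)) : List (L Y') := w.map fun l => (l.1, l.2.map f)

def shape (w : List (L Y)) : List (L Unit) := mapW (fun _ => ()) w

def shift (n : ℕ) (w : List (L Y)) : List (L Y) := w.map fun l => (l.1 + n, l.2)

def cups : List (L Y) → List Y
  | [] => []
  | (_, .cup y) :: w => y :: cups w
  | _ :: w => cups w

def nx [Lab Y] : Kd Y → List Y → List Y
  | .X, p :: q :: r => Lab.act p q :: p :: r
  | .Z, p :: q :: r => q :: Lab.act (Lab.rho q) p :: r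
  | .cup y, r => y :: Lab.rho y :: r
  | .cap, _ :: _ :: r => r
  | _, r => r

def okh [Lab Y] : Kd Y → List Y → Prop
  | .X, r => 2 ≤ r.length
  | .Z, r => 2 ≤ r.length
  | .cup _, _ => True
  | .cap, r => ∃ p t, r = p :: Lab.rho p :: t

/-- The labels on the level above the letter `l`, when `a` is the level below. -/
def next [Lab Y] (l : L Y) (a : List Y) : List Y := a.take l.1 ++ nx l.2 (a.drop l.1)

def ok [Lab Y] (l : L Y) (a : List Y) : Prop := l.1 ≤ a.length ∧ okh l.2 (a.drop l.1)

/-- `w` is a consistently labelled diagram with bottom level `a` and top level `b`. -/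
def Run [Lab Y] : List (L Y) → List Y → List Y → Prop
  | [], a, b => a = b
  | l :: w, a, b => ok l a ∧ Run w (next l a) b

def Kd.inw : Kd Y → ℕ
  | .cup _ => 0
  | _ => 2

def Kd.outw : Kd Y → ℕ
  | .cap => 0
  | _ => 2

/-- The Turaev moves for sliced diagrams. -/
inductive Mv : List (L Unit) → List (L Unit) → Prop where
  | far (i m : ℕ) (k k' : Kd Unit) :
      Mv [(i, k), (i + k.outw + m, k')] [(i + k.inw + m, k'), (i, k)]
  | zig (i : ℕ) : Mv [(i + 1, .cup ()), (i, .cap)] []
  | zag (i : ℕ) : Mv [(i, .cup ()), (i + 1, .cap)] []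
  | r1X (i : ℕ) : Mv [(i, .X), (i, .cap)] [(i, .cap)]
  | r1Z (i : ℕ) : Mv [(i, .Z), (i, .cap)] [(i, .cap)]
  | r2X (i : ℕ) : Mv [(i, .X), (i, .Z)] []
  | r2Z (i : ℕ) : Mv [(i, .Z), (i, .X)] []
  | r3 (i : ℕ) : Mv [(i, .X), (i + 1, .X), (i, .X)] [(i + 1, .X), (i, .X), (i + 1, .X)]
  | capX (i : ℕ) : Mv [(i, .X), (i + 1, .cap)] [(i + 1, .Z), (i, .cap)]
  | capZ (i : ℕ) : Mv [(i, .Z), (i + 1, .cap)] [(i + 1, .X), (i, .cap)]
  | cupX (i : ℕ) : Mv [(i + 1, .cup ()), (i, .X)] [(i, .cup ()), (i + 1, .Z)]
  | cupZ (i : ℕ) : Mv [(i + 1, .cup ()), (i, .Z)] [(i, .cup ()), (i + 1, .X)]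

/-- One move, in either direction, that keeps the labels around it. -/
def Step [Lab Y] (w w' : List (L Y)) : Prop :=
  ∃ p u u' q a b, w = p ++ u ++ q ∧ w' = p ++ u' ++ q ∧
    (Mv (shape u) (shape u') ∨ Mv (shape u') (shape u)) ∧ Run p [] a ∧ Run u a b ∧ Run u' a b

def Iso [Lab Y] : List (L Y) → List (L Y) → Prop := Relation.ReflTransGen Step

/-- Letters of marked graph diagrams: an ordinary letter or a saddle mark. -/
inductive ML (Y : Type) where
  | lt (l : L Y) : ML Y
  | mk (i : ℕ) (y : Y) : ML Y

def ML.map (f : Y → Y') : ML Y → ML Y'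
  | .lt l => .lt (l.1, l.2.map f)
  | .mk i y => .mk i (f y)

/-- Before the saddles: two vertical strands at each mark. -/
def lo : List (ML Y) → List (L Y)
  | [] => []
  | .lt l :: D => l :: lo D
  | .mk _ _ :: D => lo D

/-- After the saddles: a maximum and a minimum at each mark. -/
def hi : List (ML Y) → List (L Y)
  | [] => []
  | .lt l :: D => l :: hi D
  | .mk i y :: D => (i, .cap) :: (i, .cup y) :: hi D

def marks : List (ML Y) → ℕ
  | [] => 0
  | .lt _ :: D => marks D
  | .mk _ _ :: D => marks D + 1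

def RunM [Lab Y] : List (ML Y) → List Y → List Y → Prop
  | [], a, b => a = b
  | .lt l :: D, a, b => ok l a ∧ RunM D (next l a) b
  | .mk i y :: D, a, b => Run [(i, .cap), (i, .cup y)] a a ∧ RunM D a b

/-- The marked diagram is connected: every 2-colouring is constant. -/
def Conn (D : List (ML Bool)) : Prop :=
  ∀ E : List (ML (Bool × Bool)), E.map (ML.map Prod.fst) = D → RunM E [] [] →
    ∀ y ∈ cups (lo E), ∀ z ∈ cups (lo E), y.2 = z.2

def circles (s : List Y) : List (L Y) := s.flatMap fun y => [(0, .cup y), (0, .cap)]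

def IsKnot (K : List (L Bool)) : Prop := K ≠ [] ∧ Run K [] [] ∧ Conn (K.map ML.lt)

/-- Normal form of a smooth disc: `b` births, `b + d` simultaneous saddles, `d + 1` deaths,
connected. -/
def Slice (K : List (L Bool)) : Prop :=
  ∃ (D : List (ML Bool)) (s s' : List Bool) (y : Bool), RunM D [] [] ∧ Conn D ∧
    marks D = s.length + s'.length ∧ Iso (lo D) (K ++ circles s) ∧ Iso (hi D) (circles (y :: s'))

/-- Blackboard doubling. -/
def dbl (w : List (L (Y × Y))) : List (L Y) :=
  w.flatMap fun l => match l with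
    | (i, .X) => [(2 * i + 1, .X), (2 * i + 2, .X), (2 * i, .X), (2 * i + 1, .X)]
    | (i, .Z) => [(2 * i + 1, .Z), (2 * i, .Z), (2 * i + 2, .Z), (2 * i + 1, .Z)]
    | (i, .cup y) => [(2 * i, .cup y.1), (2 * i + 1, .cup y.2)]
    | (i, .cap) => [(2 * i + 1, .cap), (2 * i, .cap)]

/-- Two oppositely oriented parallel copies of `w`. -/
def two (s : Bool) (w : List (L Y)) : List (L Bool) := dbl (mapW (fun _ => (s, !s)) w)

/-- The ends of the `2 g` bands in the standard order `a b a b`, handle by handle. -/
def legs (g : ℕ) : List (Bool × (Fin g × Bool)) :=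
  (List.finRange g).flatMap fun j =>
    [(true, (j, false)), (true, (j, true)), (false, (j, false)), (false, (j, true))]

/-- `S` consists of `2 g` arcs named by `Fin g × Bool`, with ends `legs g`: strands with the same
name lie on the same component, and every maximum joins two different components of the part
below it. -/
def Bands (g : ℕ) (S : List (L (Bool × (Fin g × Bool)))) : Prop :=
  Run S [] (legs g) ∧
  (∀ (E : List (L (Bool × ((Fin g × Bool) × Bool)))) b,
    mapW (fun y => (y.1, y.2.1)) E = S → Run E [] b →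
      ∀ y ∈ cups E, ∀ z ∈ cups E, y.2.1 = z.2.1 → y.2.2 = z.2.2) ∧
  ∀ p i q, S = p ++ (i, .cap) :: q →
    ∃ (E : List (L (Bool × Bool))) (l : List (Bool × Bool)) (y z : Bool × Bool)
      (r : List (Bool × Bool)), mapW Prod.fst E = mapW Prod.fst p ∧ l.length = i ∧
        Run E [] (l ++ y :: z :: r) ∧ y.2 ≠ z.2

/-- The long knot that bounds a disc with `2 g` bands along `S`. -/
def knot (g : ℕ) (S : List (L (Bool × (Fin g × Bool)))) : List (L Bool) :=
  shift 1 (two false S) ++ List.replicate (4 * g) (0, .cap)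

/-- Sign of a crossing of band `i` over band `j` at the start of the level `r`. -/
def wt {T : Type} [DecidableEq T] (i j : T) : Kd (Bool × T) → List (Bool × T) → ℤ
  | .X, p :: q :: _ => if p.2 = i ∧ q.2 = j then (if p.1 = q.1 then 1 else -1) else 0
  | .Z, p :: q :: _ => if q.2 = i ∧ p.2 = j then (if p.1 = q.1 then -1 else 1) else 0
  | _, _ => 0

def cnt {T : Type} [DecidableEq T] (i j : T) : List (L (Bool × T)) → List (Bool × T) → ℤ
  | [], _ => 0
  | l :: w, a => wt i j l.2 (a.drop l.1) + cnt i j w (next l a)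

/-- The Seifert matrix of the disc with bands. -/
def seifert {T : Type} [DecidableEq T] (S : List (L (Bool × T))) : Matrix T T ℤ :=
  fun i j => cnt i j S []

/-- The form vanishes on a direct summand of half rank. -/
def Metabolic (g : ℕ) (V : Matrix (Fin g × Bool) (Fin g × Bool) ℤ) : Prop :=
  ∃ W W' : Submodule ℤ (Fin g × Bool → ℤ), IsCompl W W' ∧ Module.finrank ℤ W = g ∧
    ∀ x ∈ W, ∀ y ∈ W, x ⬝ᵥ V.mulVec y = 0

end Pool.Agent.AS
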